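import Pool.Agent.Helper51.PP.GoalsA2b

namespace Pool.Agent.Helper87.PP

open Finset
open Pool.Agent.Helper51.PP

theorem a2_hlg : A2_HLG := by
  intro J _ β S b r T M hr hb hT hM
  have hr1 : (1 : ℝ) ≤ r := by exact_mod_cast hr
  set q : ℝ := 2 * (r : ℝ) with hq
  have hq1 : 1 < q := by rw [hq]; linarith
  have hconj : (q / (q - 1)).HolderConjugate q := (Real.HolderConjugate.conjExponent hq1).symm
  set s : ℝ := q / (q - 1) with hs
  have hs2 : s ≤ 2 := by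
    rw [hs, div_le_iff₀ (by linarith)]
    rw [hq]; linarith
  have hinv : 1 / s = 1 - 1 / q := by
    rw [hs]
    have h1 : q - 1 ≠ 0 := by linarith
    have h2 : q ≠ 0 := by linarith
    field_simp
  have hs0 : 0 < s := hconj.pos
  have h1 : ‖∑ j, β j * S j‖ ≤ ∑ j, ‖β j‖ * ‖S j‖ := by
    refine (norm_sum_le _ _).trans (le_of_eq ?_)
    apply Finset.sum_congr rfl
    intro j _
    rw [norm_mul]
  have h2 := Real.inner_le_Lp_mul_Lq Finset.univ (fun j ↦ ‖β j‖) (fun j ↦ ‖S j‖) hconj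
  refine h1.trans (h2.trans ?_)
  have h3 : ∑ j, |‖β j‖| ^ s ≤ T := by
    refine le_trans (Finset.sum_le_sum ?_) hT
    intro j _
    obtain ⟨hb1, hb2⟩ := hb j
    rw [abs_of_nonneg (norm_nonneg _)]
    calc ‖β j‖ ^ s ≤ (b j) ^ s := Real.rpow_le_rpow (norm_nonneg _) hb2 hs0.le
      _ ≤ (b j) ^ (2 : ℝ) := Real.rpow_le_rpow_of_exponent_le hb1 hs2
      _ = b j ^ 2 := by norm_cast
  have h4 : ∑ j, |‖S j‖| ^ q ≤ M := by
    refine le_trans (le_of_eq ?_) hM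
    apply Finset.sum_congr rfl
    intro j _
    rw [abs_of_nonneg (norm_nonneg _), hq]
    have : (2 * (r : ℝ)) = ((2 * r : ℕ) : ℝ) := by push_cast; ring
    rw [this, Real.rpow_natCast]
  have h5 : 0 ≤ ∑ j, |‖β j‖| ^ s := Finset.sum_nonneg fun j _ ↦ Real.rpow_nonneg (abs_nonneg _) _
  have h6 : 0 ≤ ∑ j, |‖S j‖| ^ q := Finset.sum_nonneg fun j _ ↦ Real.rpow_nonneg (abs_nonneg _) _
  have h7 : (∑ j, |‖β j‖| ^ s) ^ (1 / s) ≤ T ^ (1 - 1 / q) := by
    rw [hinv]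
    apply Real.rpow_le_rpow h5 h3
    have : 1 / q ≤ 1 := by
      rw [div_le_one (by linarith)]; linarith
    linarith
  have h8 : (∑ j, |‖S j‖| ^ q) ^ (1 / q) ≤ M ^ (1 / q) := by
    apply Real.rpow_le_rpow h6 h4
    have : 0 < q := by linarith
    positivity
  exact mul_le_mul h7 h8 (Real.rpow_nonneg h6 _) (Real.rpow_nonneg (h5.trans h3) _)

end Pool.Agent.Helper87.PP
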